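import Pool.Agent.helper17.HH.SpecR

/-!
# RMS: sums and quotients of multipliers
-/

set_option autoImplicit false

open scoped Pointwise

namespace Pool.Agent.HH

/-- all dilates of `G` by products of two elements of `P` -/
noncomputable def RMS_U (P G : Finset ℝ) : Finset ℝ := (P ×ˢ P).biUnion (fun p => dil (p.1 * p.2) G)

theorem RMS_mem {P G : Finset ℝ} {a b g : ℝ} (ha : a ∈ P) (hb : b ∈ P) (hg : g ∈ G) : a * b * g ∈ RMS_U P G := by
  unfold RMS_U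
  rw [Finset.mem_biUnion]
  exact ⟨(a, b), Finset.mem_product.2 ⟨ha, hb⟩, Finset.mem_image.2 ⟨g, hg, rfl⟩⟩

theorem RMS_mem1 {P G : Finset ℝ} (h1 : (1 : ℝ) ∈ P) {a g : ℝ} (ha : a ∈ P) (hg : g ∈ G) : a * g ∈ RMS_U P G := by
  have h := RMS_mem h1 ha hg
  rwa [one_mul] at h

theorem RMS_mem0 {P G : Finset ℝ} (h1 : (1 : ℝ) ∈ P) {g : ℝ} (hg : g ∈ G) : g ∈ RMS_U P G := by
  have h := RMS_mem1 h1 h1 hg
  rwa [one_mul] at h

theorem RMS_s6 {U : Finset ℝ} {a b c d e f : ℝ} (ha : a ∈ U) (hb : b ∈ U) (hc : c ∈ U) (hd : d ∈ U) (he : e ∈ U) (hf : f ∈ U) :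
    a + (b + (c + (d + (e + (f + 0))))) ∈ isum 6 U := by
  simp only [isum]
  exact Finset.add_mem_add ha (Finset.add_mem_add hb (Finset.add_mem_add hc (Finset.add_mem_add hd
    (Finset.add_mem_add he (Finset.add_mem_add hf (Finset.mem_singleton_self _))))))

theorem RMS_big (hV : RCV_stmt) (d : ℝ) {ι : Type} [DecidableEq ι] (S : Finset ι) (f : ι → Finset ℝ) :
    cov d (S.biUnion f) ≤ ∑ i ∈ S, cov d (f i) := by
  induction S using Finset.induction_on with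
  | empty => simp [cov, cel]
  | insert a S ha ih =>
    rw [Finset.biUnion_insert, Finset.sum_insert ha]
    exact (hV.un d _ _).trans (Nat.add_le_add_left ih _)

theorem RMS_U_bound (hV : RCV_stmt) {CM : ℝ} (hCM1 : 1 ≤ CM)
    (hCM : ∀ (d K m m' : ℝ) (G : Finset ℝ), 0 < d → 1 ≤ K → G.Nonempty → 1 / 8 ≤ m → m ≤ 8 → 1 / 8 ≤ m' → m' ≤ 8 →
      (cov d (G - dil m G) : ℝ) ≤ K * cov d G → (cov d (G - dil m' G) : ℝ) ≤ K * cov d G →
      (cov d (G - dil (m * m') G) : ℝ) ≤ CM * K ^ 2 * cov d G ∧ (cov d (G - G) : ℝ) ≤ CM * K ^ 2 * cov d G)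
    {G P : Finset ℝ} {δ K : ℝ} (hδ : 0 < δ) (hK : 1 ≤ K) (hG : G.Nonempty) (hP : ∀ p ∈ P, p = 1 ∨ MU G δ K p)
    (hex : ∃ m, MU G δ K m) (hc : P.card ≤ 7) :
    (cov δ (G - RMS_U P G) : ℝ) ≤ 49 * CM * K ^ 2 * cov δ G := by
  have hcov : (0 : ℝ) ≤ cov δ G := Nat.cast_nonneg _
  have hKK : K ≤ CM * K ^ 2 := by nlinarith
  have hM : ∀ m, MU G δ K m → (cov δ (G - dil m G) : ℝ) ≤ CM * K ^ 2 * cov δ G := fun m hm =>
    hm.2.2.trans (mul_le_mul_of_nonneg_right hKK hcov)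
  have h1 : ∀ p ∈ P ×ˢ P, (cov δ (G - dil (p.1 * p.2) G) : ℝ) ≤ CM * K ^ 2 * cov δ G := by
    intro p hp
    rw [Finset.mem_product] at hp
    rcases hP _ hp.1 with ha | ha
    · rcases hP _ hp.2 with hb | hb
      · rw [ha, hb, one_mul]
        have e : dil 1 G = G := by
          unfold dil
          simp
        rw [e]
        obtain ⟨m, hm⟩ := hex
        exact (hCM δ K m m G hδ hK hG hm.1 hm.2.1 hm.1 hm.2.1 hm.2.2 hm.2.2).2
      · rw [ha, one_mul]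
        exact hM _ hb
    · rcases hP _ hp.2 with hb | hb
      · rw [hb, mul_one]
        exact hM _ ha
      · exact (hCM δ K _ _ G hδ hK hG ha.1 ha.2.1 hb.1 hb.2.1 ha.2.2 hb.2.2).1
  have h2 : G - RMS_U P G ⊆ (P ×ˢ P).biUnion (fun p => G - dil (p.1 * p.2) G) := by
    intro z hz
    rw [Finset.mem_sub] at hz
    obtain ⟨g, hg, u, hu, rfl⟩ := hz
    unfold RMS_U at hu
    rw [Finset.mem_biUnion] at hu ⊢
    obtain ⟨p, hp, hu⟩ := hu
    exact ⟨p, hp, Finset.sub_mem_sub hg hu⟩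
  have h3 := (hV.mo δ _ _ h2).trans (RMS_big hV δ (P ×ˢ P) (fun p => G - dil (p.1 * p.2) G))
  have h4 : (cov δ (G - RMS_U P G) : ℝ) ≤ ∑ p ∈ P ×ˢ P, (cov δ (G - dil (p.1 * p.2) G) : ℝ) := by exact_mod_cast h3
  have h5 := Finset.sum_le_card_nsmul (P ×ˢ P) (fun p => (cov δ (G - dil (p.1 * p.2) G) : ℝ)) _ h1
  rw [nsmul_eq_mul, Finset.card_product] at h5
  have h6 : ((P.card * P.card : ℕ) : ℝ) ≤ 49 := by
    have h7 : P.card * P.card ≤ 7 * 7 := Nat.mul_le_mul hc hc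
    exact_mod_cast h7
  have h8 : (0 : ℝ) ≤ CM * K ^ 2 * cov δ G := by positivity
  calc (cov δ (G - RMS_U P G) : ℝ) ≤ ((P.card * P.card : ℕ) : ℝ) * (CM * K ^ 2 * cov δ G) := h4.trans h5
    _ ≤ 49 * (CM * K ^ 2 * cov δ G) := mul_le_mul_of_nonneg_right h6 h8
    _ = 49 * CM * K ^ 2 * cov δ G := by ring

theorem RMS_scale (hV : RCV_stmt) {δ r t : ℝ} (hδ : 0 < δ) (hr : 0 < r) (ht : r ≤ |t|) (E : Finset ℝ) :
    cov (δ / r) E ≤ 4 * cov δ (dil t E) := by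
  have hT : 0 < |t| := hr.trans_le ht
  have h1 : cov (δ / r) E ≤ 2 * cov (δ / |t|) E := hV.co _ _ E (by positivity) (div_le_div_of_nonneg_left hδ.le hr ht)
  have h2 : cov (δ / |t|) E = cov δ (dil |t| E) := by
    have h3 := hV.dl (δ / |t|) |t| E hT
    rw [mul_div_cancel₀ _ hT.ne'] at h3
    exact h3.symm
  have h3 : cov δ (dil |t| E) ≤ 2 * cov δ (dil t E) := by
    rcases abs_choice t with h | h
    · rw [h]
      omega
    · have e : dil |t| E = dil (-1) (dil t E) := by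
        rw [h]
        unfold dil
        rw [Finset.image_image]
        congr 1
        funext y
        simp
      rw [e]
      exact hV.ng δ _
  omega

theorem RMS_core (hV : RCV_stmt) (hPL : RPL_stmt) (hML : RML_stmt) (hLO : RLO_stmt) : ∃ C : ℝ, 1 ≤ C ∧
    ∀ (G P E : Finset ℝ) (δ D K r t : ℝ), 0 < δ → δ ≤ 1 → 1 ≤ D → 1 ≤ K → GC G δ D → (1 : ℝ) ∈ P → (∀ p ∈ P, p = 1 ∨ MU G δ K p) →
      (∃ m, MU G δ K m) → P.card ≤ 7 → δ ≤ r → r ≤ |t| →
      (∀ e ∈ E, t * e ∈ isum 6 (RMS_U P G) - isum 6 (RMS_U P G) ∧ |t * e| ≤ 64 * r) →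
      (cov (δ / r) E : ℝ) ≤ C * K ^ 26 * D ^ 2 * Real.sqrt (r / δ) := by
  obtain ⟨CP, hCP0, hCP⟩ := hPL 7 6
  obtain ⟨CM, hCM1, hCM⟩ := hML
  obtain ⟨CL, hCL1, hCL⟩ := hLO
  refine ⟨32 * (CL * ((CP + 1) * (49 * CM) ^ 13)), ?_, ?_⟩
  · have h1 : (1 : ℝ) ≤ (49 * CM) ^ 13 := one_le_pow₀ (by linarith)
    have h2 : (1 : ℝ) ≤ (CP + 1) * (49 * CM) ^ 13 := by nlinarith
    nlinarith [mul_le_mul hCL1 h2 (by norm_num) (by linarith : (0 : ℝ) ≤ CL)]
  intro G P E δ D K r t hδ hδ1 hD hK hGC h1P hP hex hc hr ht hE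
  have hr0 : 0 < r := hδ.trans_le hr
  have hD0 : 0 < D := by linarith
  have hGne : G.Nonempty := by
    by_contra h
    rw [Finset.not_nonempty_iff_eq_empty] at h
    have h2 := hGC.lo 1 hδ1 le_rfl
    rw [h] at h2
    simp [cov, cel] at h2
    linarith
  set U := RMS_U P G with hU
  set S := isum 6 U - isum 6 U with hS
  have hcovG : (1 : ℝ) ≤ cov δ G := by exact_mod_cast hV.po δ G hGne
  have hUne : U.Nonempty := by
    obtain ⟨g, hg⟩ := hGne
    exact ⟨g, RMS_mem0 h1P hg⟩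
  -- the local part
  have h1 : dil t E ⊆ lc S 0 (64 * r) := by
    intro z hz
    unfold dil at hz
    rw [Finset.mem_image] at hz
    obtain ⟨e, he, rfl⟩ := hz
    unfold lc
    rw [Finset.mem_filter, sub_zero]
    exact hE e he
  have h2 : (cov (δ / r) E : ℝ) ≤ 4 * cov δ (lc S 0 (64 * r)) := by
    have h3 := (RMS_scale hV hδ hr0 ht E).trans (Nat.mul_le_mul_left 4 (hV.mo δ _ _ h1))
    exact_mod_cast h3
  have h3 := hCL δ (64 * r) 0 G S hδ (by linarith)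
  -- the sumset
  have h4 : G + S ⊆ isum 7 U - isum 6 U := by
    intro z hz
    rw [Finset.mem_add] at hz
    obtain ⟨g, hg, s, hs, rfl⟩ := hz
    rw [hS, Finset.mem_sub] at hs
    obtain ⟨a, ha, b, hb, rfl⟩ := hs
    have e : g + (a - b) = (g + a) - b := by ring
    rw [e]
    apply Finset.sub_mem_sub _ hb
    rw [show (7 : ℕ) = 6 + 1 from rfl]
    change g + a ∈ U + isum 6 U
    exact Finset.add_mem_add (RMS_mem0 h1P hg) ha
  have h5 : (cov δ (G + S) : ℝ) ≤ cov δ (isum 7 U - isum 6 U) := by exact_mod_cast hV.mo δ _ _ h4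
  have h6 := hCP δ G U hGne hUne
  have h7 := RMS_U_bound hV hCM1 hCM hδ hK hGne hP hex hc
  rw [← hU] at h7
  have h8 : (cov δ (G - U) : ℝ) / cov δ G ≤ 49 * CM * K ^ 2 := by
    rw [div_le_iff₀ (by linarith)]
    exact h7
  have h9 : ((cov δ (G - U) : ℝ) / cov δ G) ^ (7 + 6) ≤ (49 * CM) ^ 13 * K ^ 26 := by
    calc ((cov δ (G - U) : ℝ) / cov δ G) ^ (7 + 6) ≤ (49 * CM * K ^ 2) ^ (7 + 6) :=
          pow_le_pow_left₀ (by positivity) h8 _
      _ = (49 * CM) ^ 13 * K ^ 26 := by ring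
  have h10 : (cov δ G : ℝ) ≤ D * Real.sqrt (1 / δ) := by
    have h11 := hGC.up δ 1 0 le_rfl hδ1 le_rfl
    have e : lc G 0 1 = G := by
      unfold lc
      rw [Finset.filter_true_of_mem]
      intro y hy
      have h12 := hGC.i y hy
      rw [sub_zero, abs_le]
      constructor <;> linarith
    rwa [e] at h11
  have h11 : (cov δ (G + S) : ℝ) ≤ (CP + 1) * ((49 * CM) ^ 13 * K ^ 26) * (D * Real.sqrt (1 / δ)) := by
    have h12 : (0 : ℝ) ≤ (49 * CM) ^ 13 * K ^ 26 := by positivity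
    calc (cov δ (G + S) : ℝ) ≤ CP * ((cov δ (G - U) : ℝ) / cov δ G) ^ (7 + 6) * cov δ G := h5.trans h6
      _ ≤ CP * ((49 * CM) ^ 13 * K ^ 26) * cov δ G := by gcongr
      _ ≤ (CP + 1) * ((49 * CM) ^ 13 * K ^ 26) * cov δ G := by gcongr; linarith
      _ ≤ (CP + 1) * ((49 * CM) ^ 13 * K ^ 26) * (D * Real.sqrt (1 / δ)) := by gcongr
  have h12 : 1 / D * Real.sqrt (1 / (64 * r)) ≤ cov (64 * r) G := by
    rcases le_or_gt (64 * r) 1 with h | h
    · exact hGC.lo (64 * r) (by linarith) h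
    · have h13 : (1 : ℝ) ≤ cov (64 * r) G := by exact_mod_cast hV.po _ G hGne
      have h14 : Real.sqrt (1 / (64 * r)) ≤ 1 := by
        apply Real.sqrt_le_one.2
        rw [div_le_one (by linarith)]
        exact h.le
      have h15 : 1 / D ≤ 1 := by
        rw [div_le_one hD0]
        exact hD
      calc 1 / D * Real.sqrt (1 / (64 * r)) ≤ 1 * 1 := mul_le_mul h15 h14 (Real.sqrt_nonneg _) (by norm_num)
        _ ≤ cov (64 * r) G := by rw [one_mul]; exact h13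
  set A : ℝ := (cov δ (lc S 0 (64 * r)) : ℝ) with hA
  have hA0 : 0 ≤ A := Nat.cast_nonneg _
  have h13 : A * (1 / D * Real.sqrt (1 / (64 * r))) ≤ CL * ((CP + 1) * ((49 * CM) ^ 13 * K ^ 26) * (D * Real.sqrt (1 / δ))) := by
    calc A * (1 / D * Real.sqrt (1 / (64 * r))) ≤ A * cov (64 * r) G := mul_le_mul_of_nonneg_left h12 hA0
      _ ≤ CL * cov δ (G + S) := h3
      _ ≤ _ := mul_le_mul_of_nonneg_left h11 (by linarith)
  have h14 : A ≤ CL * ((CP + 1) * ((49 * CM) ^ 13 * K ^ 26) * (D * Real.sqrt (1 / δ))) * (D * Real.sqrt (64 * r)) := by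
    have h15 : (1 / D * Real.sqrt (1 / (64 * r))) * (D * Real.sqrt (64 * r)) = 1 := by
      rw [one_div (64 * r), Real.sqrt_inv]
      have h16 : 0 < Real.sqrt (64 * r) := Real.sqrt_pos.2 (by linarith)
      field_simp
    calc A = A * ((1 / D * Real.sqrt (1 / (64 * r))) * (D * Real.sqrt (64 * r))) := by rw [h15, mul_one]
      _ = A * (1 / D * Real.sqrt (1 / (64 * r))) * (D * Real.sqrt (64 * r)) := by ring
      _ ≤ _ := mul_le_mul_of_nonneg_right h13 (by positivity)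
  have h15 : Real.sqrt (1 / δ) * Real.sqrt (64 * r) = 8 * Real.sqrt (r / δ) := by
    rw [← Real.sqrt_mul (by positivity)]
    rw [show 1 / δ * (64 * r) = 8 ^ 2 * (r / δ) by ring, Real.sqrt_mul (by norm_num), Real.sqrt_sq (by norm_num)]
  calc (cov (δ / r) E : ℝ) ≤ 4 * A := h2
    _ ≤ 4 * (CL * ((CP + 1) * ((49 * CM) ^ 13 * K ^ 26) * (D * Real.sqrt (1 / δ))) * (D * Real.sqrt (64 * r))) := by linarith
    _ = 4 * (CL * ((CP + 1) * (49 * CM) ^ 13)) * K ^ 26 * D ^ 2 * (Real.sqrt (1 / δ) * Real.sqrt (64 * r)) := by ring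
    _ = 32 * (CL * ((CP + 1) * (49 * CM) ^ 13)) * K ^ 26 * D ^ 2 * Real.sqrt (r / δ) := by rw [h15]; ring

theorem RMS_proof (h : RCV_stmt) (h1 : RPL_stmt) (h2 : RML_stmt) (h3 : RLO_stmt) : RMS_stmt := by
  obtain ⟨C, hC1, hC⟩ := RMS_core h h1 h2 h3
  refine ⟨C, hC1, ?_⟩
  intro G δ D K m1 m2 m3 m4 m5 m6 r x x' hδ hδ1 hD hK hGC M1 M2 M3 M4 M5 M6 hr hδr h34 hx hx0 hx'
  have hr0 : 0 < r := hδ.trans_le hδr
  have h56 : m5 - m6 ≠ 0 := by
    intro h0
    rw [h0, abs_zero] at hr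
    linarith
  have hx1 : x ≤ 1 := by
    have h4 : |x| ≤ 1 := by
      rw [hx, abs_div, div_le_one (abs_pos.2 h56), ← hr]
      exact h34
    exact (abs_le.1 h4).2
  have hxe : (m5 - m6) * x = m3 - m4 := by
    rw [hx]
    field_simp
  set P : Finset ℝ := {1, m1, m2, m3, m4, m5, m6} with hP
  have hPc : P.card ≤ 7 := by
    have a1 := Finset.card_insert_le (1 : ℝ) {m1, m2, m3, m4, m5, m6}
    have a2 := Finset.card_insert_le m1 {m2, m3, m4, m5, m6}
    have a3 := Finset.card_insert_le m2 {m3, m4, m5, m6}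
    have a4 := Finset.card_insert_le m3 {m4, m5, m6}
    have a5 := Finset.card_insert_le m4 {m5, m6}
    have a6 := Finset.card_insert_le m5 {m6}
    have a7 := Finset.card_singleton m6
    rw [hP]
    omega
  have p0 : (1 : ℝ) ∈ P := by simp [hP]
  have p1 : m1 ∈ P := by simp [hP]
  have p2 : m2 ∈ P := by simp [hP]
  have p3 : m3 ∈ P := by simp [hP]
  have p4 : m4 ∈ P := by simp [hP]
  have p5 : m5 ∈ P := by simp [hP]
  have p6 : m6 ∈ P := by simp [hP]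
  have hPM : ∀ p ∈ P, p = 1 ∨ MU G δ K p := by
    intro p hp
    rw [hP] at hp
    simp only [Finset.mem_insert, Finset.mem_singleton] at hp
    rcases hp with h4 | h4 | h4 | h4 | h4 | h4 | h4
    · exact Or.inl h4
    · exact Or.inr (h4 ▸ M1)
    · exact Or.inr (h4 ▸ M2)
    · exact Or.inr (h4 ▸ M3)
    · exact Or.inr (h4 ▸ M4)
    · exact Or.inr (h4 ▸ M5)
    · exact Or.inr (h4 ▸ M6)
  have hx'0 : 0 ≤ x' ∧ x' ≤ 1 := by
    rcases hx' with h4 | h4 <;> rw [h4] <;> constructor <;> linarith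
  constructor
  · apply hC G P _ δ D K r (2 * (m5 - m6)) hδ hδ1 hD hK hGC p0 hPM ⟨m1, M1⟩ hPc hδr
    · rw [abs_mul, ← hr, abs_of_pos (by norm_num : (0 : ℝ) < 2)]
      linarith
    intro e he
    rw [Finset.mem_add] at he
    obtain ⟨g, hg, e2, he2, rfl⟩ := he
    unfold dil at he2
    rw [Finset.mem_image] at he2
    obtain ⟨g', hg', rfl⟩ := he2
    have hgi := hGC.i g hg
    have hgi' := hGC.i g' hg'
    constructor
    · rcases hx' with h4 | h4
      · have e1 : 2 * (m5 - m6) * (g + (m1 + x' * m2) * g') =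
            (m5 * g + (m5 * g + (m5 * m1 * g' + (m5 * m1 * g' + (m3 * m2 * g' + (g + 0)))))) -
            (m6 * g + (m6 * g + (m6 * m1 * g' + (m6 * m1 * g' + (m4 * m2 * g' + (g + 0)))))) := by
          have e2 : 2 * (m5 - m6) * (x' * m2 * g') = (m3 - m4) * m2 * g' := by
            rw [h4, ← hxe]
            ring
          linear_combination e2
        rw [e1]
        exact Finset.sub_mem_sub (RMS_s6 (RMS_mem1 p0 p5 hg) (RMS_mem1 p0 p5 hg) (RMS_mem p5 p1 hg') (RMS_mem p5 p1 hg') (RMS_mem p3 p2 hg') (RMS_mem0 p0 hg))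
          (RMS_s6 (RMS_mem1 p0 p6 hg) (RMS_mem1 p0 p6 hg) (RMS_mem p6 p1 hg') (RMS_mem p6 p1 hg') (RMS_mem p4 p2 hg') (RMS_mem0 p0 hg))
      · have e1 : 2 * (m5 - m6) * (g + (m1 + x' * m2) * g') =
            (m5 * g + (m5 * g + (m5 * m1 * g' + (m5 * m1 * g' + (m3 * m2 * g' + (m5 * m2 * g' + 0)))))) -
            (m6 * g + (m6 * g + (m6 * m1 * g' + (m6 * m1 * g' + (m4 * m2 * g' + (m6 * m2 * g' + 0)))))) := by
          have e2 : 2 * (m5 - m6) * (x' * m2 * g') = (m3 - m4 + (m5 - m6)) * m2 * g' := by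
            rw [h4, ← hxe]
            ring
          linear_combination e2
        rw [e1]
        exact Finset.sub_mem_sub (RMS_s6 (RMS_mem1 p0 p5 hg) (RMS_mem1 p0 p5 hg) (RMS_mem p5 p1 hg') (RMS_mem p5 p1 hg') (RMS_mem p3 p2 hg') (RMS_mem p5 p2 hg'))
          (RMS_s6 (RMS_mem1 p0 p6 hg) (RMS_mem1 p0 p6 hg) (RMS_mem p6 p1 hg') (RMS_mem p6 p1 hg') (RMS_mem p4 p2 hg') (RMS_mem p6 p2 hg'))
    · rw [abs_mul, abs_mul, ← hr, abs_of_pos (by norm_num : (0 : ℝ) < 2)]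
      have h5 : 0 ≤ m1 + x' * m2 := by
        have := mul_nonneg hx'0.1 (by linarith [M2.1] : (0 : ℝ) ≤ m2)
        linarith [M1.1]
      have h6 : m1 + x' * m2 ≤ 16 := by
        have : x' * m2 ≤ 1 * 8 := mul_le_mul hx'0.2 M2.2.1 (by linarith [M2.1]) (by norm_num)
        linarith [M1.2.1]
      have h7 : (m1 + x' * m2) * g' ≤ 16 * 1 := mul_le_mul h6 hgi'.2 hgi'.1 (by norm_num)
      have h8 : 0 ≤ (m1 + x' * m2) * g' := mul_nonneg h5 hgi'.1
      have h9 : |g + (m1 + x' * m2) * g'| ≤ 17 := by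
        rw [abs_le]
        constructor <;> linarith [hgi.1, hgi.2]
      nlinarith [abs_nonneg (g + (m1 + x' * m2) * g')]
  · apply hC G P _ δ D K r (m5 - m6) hδ hδ1 hD hK hGC p0 hPM ⟨m1, M1⟩ hPc hδr (le_of_eq hr)
    intro e he
    rw [Finset.mem_add] at he
    obtain ⟨g, hg, e2, he2, rfl⟩ := he
    rw [Finset.mem_add] at he2
    obtain ⟨g', hg', e3, he3, rfl⟩ := he2
    unfold dil at he3
    rw [Finset.mem_image] at he3
    obtain ⟨g'', hg'', rfl⟩ := he3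
    have hgi := hGC.i g hg
    have hgi' := hGC.i g' hg'
    have hgi'' := hGC.i g'' hg''
    constructor
    · have e1 : (m5 - m6) * (g + (g' + x * g'')) =
          (m5 * g + (m5 * g' + (m3 * g'' + (g + (g + (g + 0)))))) -
          (m6 * g + (m6 * g' + (m4 * g'' + (g + (g + (g + 0)))))) := by
        have e2 : (m5 - m6) * (x * g'') = (m3 - m4) * g'' := by
          rw [← hxe]
          ring
        linear_combination e2
      rw [e1]
      exact Finset.sub_mem_sub (RMS_s6 (RMS_mem1 p0 p5 hg) (RMS_mem1 p0 p5 hg') (RMS_mem1 p0 p3 hg'') (RMS_mem0 p0 hg) (RMS_mem0 p0 hg) (RMS_mem0 p0 hg))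
        (RMS_s6 (RMS_mem1 p0 p6 hg) (RMS_mem1 p0 p6 hg') (RMS_mem1 p0 p4 hg'') (RMS_mem0 p0 hg) (RMS_mem0 p0 hg) (RMS_mem0 p0 hg))
    · rw [abs_mul, ← hr]
      have h5 : 0 ≤ x * g'' := mul_nonneg hx0 hgi''.1
      have h6 : x * g'' ≤ 1 * 1 := mul_le_mul hx1 hgi''.2 hgi''.1 (by norm_num)
      have h9 : |g + (g' + x * g'')| ≤ 3 := by
        rw [abs_le]
        constructor <;> linarith [hgi.1, hgi.2, hgi'.1, hgi'.2]
      nlinarith [abs_nonneg (g + (g' + x * g''))]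

end Pool.Agent.HH
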